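import Mathlib
import Pool.Agent.Helper34.PM.Defs

/-!
# Block R2 of the transcendence measure of pi: Mahler measures, common roots, common powers
-/

set_option autoImplicit false

namespace Pool.Agent.Helper99.PM

open Polynomial Finset
open Pool.Agent.PM

theorem Mm_mul (P R : ℤ[X]) : Mm (P * R) = Mm P * Mm R := by
  unfold Mm
  rw [Polynomial.map_mul, mahlerMeasure_mul]

theorem one_le_Mm {P : ℤ[X]} (hP : P ≠ 0) : 1 ≤ Mm P := by
  unfold Mm
  apply one_le_mahlerMeasure_of_one_le_norm_leadingCoeff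
  rw [leadingCoeff_map_of_injective (RingHom.injective_int _)]
  have h1 : P.leadingCoeff ≠ 0 := leadingCoeff_ne_zero.2 hP
  rw [eq_intCast, Complex.norm_intCast]
  exact_mod_cast Int.one_le_abs h1

theorem Mm_le {P : ℤ[X]} {d : ℕ} {H : ℝ} (hd : P.natDegree ≤ d)
    (hH : ∀ i, |(P.coeff i : ℝ)| ≤ H) : Mm P ≤ (d + 1) * H := by
  have hH0 : 0 ≤ H := (abs_nonneg _).trans (hH 0)
  unfold Mm
  refine (mahlerMeasure_le_sum_norm_coeff _).trans ?_
  rw [sum_over_range' _ (fun _ => norm_zero) (d + 1)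
    (Nat.lt_succ_of_le ((natDegree_map_le).trans hd))]
  calc ∑ i ∈ range (d + 1), ‖(P.map (Int.castRingHom ℂ)).coeff i‖ ≤ ∑ _i ∈ range (d + 1), H := by
        refine Finset.sum_le_sum fun i _ => ?_
        rw [coeff_map, eq_intCast, Complex.norm_intCast]
        exact hH i
    _ = (d + 1) * H := by
        rw [Finset.sum_const, card_range, nsmul_eq_mul]
        push_cast
        ring

theorem coeff_le_Mm (P : ℤ[X]) (i : ℕ) : |(P.coeff i : ℝ)| ≤ 2 ^ P.natDegree * Mm P := by
  have h1 := norm_coeff_le_choose_mul_mahlerMeasure i (P.map (Int.castRingHom ℂ))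
  rw [coeff_map, eq_intCast, Complex.norm_intCast] at h1
  refine h1.trans ?_
  unfold Mm
  apply mul_le_mul_of_nonneg_right _ (mahlerMeasure_nonneg _)
  rw [natDegree_map_eq_of_injective (RingHom.injective_int _)]
  exact_mod_cast Nat.choose_le_two_pow _ _

/-- Gauss: a common root. -/
theorem dvd_of_root {P R : ℤ[X]} (hP : Irreducible P) (hd : 0 < P.natDegree) {z : ℂ}
    (hz : aeval z P = 0) (hR : aeval z R = 0) : P ∣ R := by
  by_cases hR0 : R = 0
  · rw [hR0]; exact dvd_zero P
  have hprim : P.IsPrimitive := hP.isPrimitive hd.ne'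
  have hP' : Irreducible (P.map (Int.castRingHom ℚ)) :=
    (IsPrimitive.Int.irreducible_iff_irreducible_map_cast hprim).1 hP
  have hae : ∀ A : ℤ[X], aeval z (A.map (Int.castRingHom ℚ)) = aeval z A := by
    intro A
    have : Int.castRingHom ℚ = algebraMap ℤ ℚ := rfl
    rw [this, aeval_map_algebraMap]
  have hz' : aeval z (P.map (Int.castRingHom ℚ)) = 0 := by rw [hae, hz]
  have halg : IsAlgebraic ℚ z := ⟨_, hP'.ne_zero, hz'⟩
  have hmin : Irreducible (minpoly ℚ z) := minpoly.irreducible halg.isIntegral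
  have h1 : minpoly ℚ z ∣ P.map (Int.castRingHom ℚ) := minpoly.dvd ℚ z hz'
  have h2 : P.map (Int.castRingHom ℚ) ∣ minpoly ℚ z := hmin.dvd_symm hP' h1
  -- the primitive part
  have hRp : aeval z R.primPart = 0 := by
    have h3 : aeval z R = (R.content : ℂ) * aeval z R.primPart := by
      conv_lhs => rw [R.eq_C_content_mul_primPart]
      rw [map_mul, aeval_C]
      simp
    rw [h3] at hR
    rcases mul_eq_zero.1 hR with h4 | h4
    · exfalso
      have h5 : R.content = 0 := by exact_mod_cast h4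
      exact hR0 (content_eq_zero_iff.1 h5)
    · exact h4
  have h3 : minpoly ℚ z ∣ R.primPart.map (Int.castRingHom ℚ) := minpoly.dvd ℚ z (by rw [hae, hRp])
  have h4 : P ∣ R.primPart :=
    (IsPrimitive.Int.dvd_iff_map_cast_dvd_map_cast P R.primPart hprim).2 (h2.trans h3)
  exact h4.trans (Dvd.intro_left _ R.eq_C_content_mul_primPart.symm)

/-- The common power of `P` is divided out. -/
theorem strip {P : ℤ[X]} (hP : Irreducible P) (hd : 0 < P.natDegree) {M L : ℕ} {H : ℝ}
    (v : ℕ → ℕ → ℤ[X]) (hv : ∃ a < M, ∃ b < L, v a b ≠ 0) (hdv : ∀ a b, (v a b).natDegree < M)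
    (hH : ∀ a b i, |((v a b).coeff i : ℝ)| ≤ H) :
    ∃ (e : ℕ) (w : ℕ → ℕ → ℤ[X]), (∀ a < M, ∀ b < L, v a b = P ^ e * w a b) ∧
      (∃ a < M, ∃ b < L, ¬ P ∣ w a b) ∧ (∀ a b, (w a b).natDegree < M) ∧
      ∀ a b i, |((w a b).coeff i : ℝ)| ≤ 2 ^ M * ((M + 1) * H) := by
  classical
  have hH0 : 0 ≤ H := (abs_nonneg _).trans (hH 0 0 0)
  obtain ⟨a0, ha0, b0, hb0, hv0⟩ := hv
  have hM : 0 < M := by omega
  have hP0 : P ≠ 0 := hP.ne_zero
  set good : ℕ → Prop := fun e => ∀ a < M, ∀ b < L, P ^ e ∣ v a b with hgood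
  have hlt : ∀ e, good e → e < M := by
    intro e he
    have h1 := natDegree_le_of_dvd (he a0 ha0 b0 hb0) hv0
    rw [natDegree_pow] at h1
    have h2 := hdv a0 b0
    nlinarith
  have h0 : good 0 := fun a _ b _ => by rw [pow_zero]; exact one_dvd _
  set e := Nat.findGreatest good M with he
  have hge : good e := Nat.findGreatest_spec (P := good) (Nat.zero_le M) h0
  have hne : ¬ good (e + 1) := by
    intro hcon
    have h1 := hlt _ hcon
    exact Nat.findGreatest_is_greatest (P := good) (n := M) (k := e + 1) (by omega) (by omega) hcon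
  choose! w0 hw0 using hge
  set w : ℕ → ℕ → ℤ[X] := fun a b => if a < M ∧ b < L then w0 a b else 0 with hw
  have hvw : ∀ a < M, ∀ b < L, v a b = P ^ e * w a b := by
    intro a ha b hb
    simp only [hw]
    rw [if_pos ⟨ha, hb⟩]
    exact hw0 a ha b hb
  have hPe : P ^ e ≠ 0 := pow_ne_zero _ hP0
  have hwd : ∀ a b, (w a b).natDegree < M := by
    intro a b
    by_cases hab : a < M ∧ b < L
    · have h1 := hvw a hab.1 b hab.2
      by_cases hz : w a b = 0
      · rw [hz, natDegree_zero]; exact hM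
      · have h2 := hdv a b
        rw [h1, natDegree_mul hPe hz] at h2
        omega
    · simp only [hw]
      rw [if_neg hab, natDegree_zero]
      exact hM
  refine ⟨e, w, hvw, ?_, hwd, ?_⟩
  · by_contra hcon
    push Not at hcon
    apply hne
    intro a ha b hb
    obtain ⟨u, hu⟩ := hcon a ha b hb
    rw [hvw a ha b hb, hu, pow_succ]
    exact ⟨u, by ring⟩
  · intro a b i
    have hpos : 0 ≤ 2 ^ M * (((M : ℝ) + 1) * H) := by positivity
    by_cases hab : a < M ∧ b < L
    · refine (coeff_le_Mm (w a b) i).trans ?_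
      have h1 : Mm (v a b) = Mm (P ^ e) * Mm (w a b) := by rw [hvw a hab.1 b hab.2, Mm_mul]
      have h2 : 1 ≤ Mm (P ^ e) := one_le_Mm hPe
      have h3 : 0 ≤ Mm (w a b) := mahlerMeasure_nonneg _
      have h4 : Mm (w a b) ≤ Mm (v a b) := by
        rw [h1]
        exact le_mul_of_one_le_left h3 h2
      have h5 : Mm (v a b) ≤ (M + 1) * H := Mm_le (hdv a b).le (hH a b)
      have h6 : (2 : ℝ) ^ (w a b).natDegree ≤ 2 ^ M := pow_le_pow_right₀ (by norm_num) (hwd a b).le
      exact mul_le_mul h6 (h4.trans h5) h3 (by positivity)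
    · simp only [hw]
      rw [if_neg hab]
      simpa using hpos

end Pool.Agent.Helper99.PM
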