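import Mathlib
import Pool.Agent.Helper34.PM.Defs
import Pool.Agent.Helper99.PM.R2

/-!
# Block R1 of the transcendence measure of pi: the resultant inequality
-/

set_option autoImplicit false

namespace Pool.Agent.Helper99.PM

open Polynomial Finset
open Pool.Agent.PM

private lemma pow_sub99 {α x : ℂ} {δ : ℝ} (hα : ‖α‖ ≤ 5) (hx : ‖x‖ ≤ 4) (hδ : ‖α - x‖ ≤ δ) (hδ0 : 0 ≤ δ) (j : ℕ) :
    ‖α ^ j - x ^ j‖ ≤ δ * (j * 5 ^ j) := by
  induction j with
  | zero => simp
  | succ j ih =>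
    have e1 : α ^ (j + 1) - x ^ (j + 1) = α * (α ^ j - x ^ j) + (α - x) * x ^ j := by ring
    rw [e1]
    have h1 : ‖α * (α ^ j - x ^ j)‖ ≤ 5 * (δ * (j * 5 ^ j)) := by
      rw [norm_mul]
      exact mul_le_mul hα ih (norm_nonneg _) (by norm_num)
    have h2 : ‖(α - x) * x ^ j‖ ≤ δ * 5 ^ j := by
      rw [norm_mul, norm_pow]
      refine mul_le_mul hδ ?_ (by positivity) hδ0
      exact pow_le_pow_left₀ (norm_nonneg _) (hx.trans (by norm_num)) _
    refine (norm_add_le _ _).trans ?_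
    have h3 : δ * (((j + 1 : ℕ) : ℝ) * 5 ^ (j + 1)) = 5 * (δ * (j * 5 ^ j)) + 5 * (δ * 5 ^ j) := by
      push_cast
      ring
    rw [h3]
    have h4 : 0 ≤ δ * (5 : ℝ) ^ j := by positivity
    linarith

private lemma eval_sub99 {R : ℤ[X]} {D : ℕ} {H : ℝ} (hD : R.natDegree ≤ D) (hH : ∀ i, |(R.coeff i : ℝ)| ≤ H)
    {α x : ℂ} {δ : ℝ} (hα : ‖α‖ ≤ 5) (hx : ‖x‖ ≤ 4) (hδ : ‖α - x‖ ≤ δ) (hδ0 : 0 ≤ δ) :
    ‖aeval α R - aeval x R‖ ≤ δ * (H * ((D + 1) ^ 2 * 5 ^ D)) := by
  have hH0 : 0 ≤ H := (abs_nonneg _).trans (hH 0)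
  rw [aeval_eq_sum_range' (Nat.lt_succ_of_le hD), aeval_eq_sum_range' (Nat.lt_succ_of_le hD), ← Finset.sum_sub_distrib]
  refine (norm_sum_le _ _).trans ?_
  calc ∑ i ∈ range (D + 1), ‖R.coeff i • α ^ i - R.coeff i • x ^ i‖ ≤
      ∑ _i ∈ range (D + 1), H * (δ * (((D : ℝ) + 1) * 5 ^ D)) := by
        refine Finset.sum_le_sum fun i hi => ?_
        rw [← smul_sub, zsmul_eq_mul, norm_mul, Complex.norm_intCast]
        refine mul_le_mul (hH i) ?_ (norm_nonneg _) hH0
        refine (pow_sub99 hα hx hδ hδ0 i).trans ?_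
        have h1 : i ≤ D := Nat.lt_succ_iff.1 (mem_range.1 hi)
        have h2 : (i : ℝ) ≤ (D : ℝ) + 1 := by
          have : (i : ℝ) ≤ D := by exact_mod_cast h1
          linarith
        have h3 : (5 : ℝ) ^ i ≤ 5 ^ D := pow_le_pow_right₀ (by norm_num) h1
        apply mul_le_mul_of_nonneg_left _ hδ0
        exact mul_le_mul h2 h3 (by positivity) (by positivity)
    _ = δ * (H * ((D + 1) ^ 2 * 5 ^ D)) := by
        rw [Finset.sum_const, card_range, nsmul_eq_mul]
        push_cast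
        ring

private lemma eval_le99 {R : ℤ[X]} {D : ℕ} {H : ℝ} (hD : R.natDegree ≤ D) (hH : ∀ i, |(R.coeff i : ℝ)| ≤ H)
    (α : ℂ) : ‖aeval α R‖ ≤ ((D + 1) * H) * (max 1 ‖α‖) ^ D := by
  have hH0 : 0 ≤ H := (abs_nonneg _).trans (hH 0)
  rw [aeval_eq_sum_range' (Nat.lt_succ_of_le hD)]
  refine (norm_sum_le _ _).trans ?_
  calc ∑ i ∈ range (D + 1), ‖R.coeff i • α ^ i‖ ≤ ∑ _i ∈ range (D + 1), H * (max 1 ‖α‖) ^ D := by
        refine Finset.sum_le_sum fun i hi => ?_
        rw [zsmul_eq_mul, norm_mul, Complex.norm_intCast, norm_pow]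
        have h1 : i ≤ D := Nat.lt_succ_iff.1 (mem_range.1 hi)
        refine mul_le_mul (hH i) ?_ (by positivity) hH0
        calc ‖α‖ ^ i ≤ (max 1 ‖α‖) ^ i := pow_le_pow_left₀ (norm_nonneg _) (le_max_right _ _) _
          _ ≤ (max 1 ‖α‖) ^ D := pow_le_pow_right₀ (le_max_left _ _) h1
    _ = ((D + 1) * H) * (max 1 ‖α‖) ^ D := by
        rw [Finset.sum_const, card_range, nsmul_eq_mul]
        push_cast
        ring

/-- Resultant: `1 ≤ |a^D prod R(root)|`, the root nearest to `x` is replaced by `x`. -/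
theorem res_ineq {P R : ℤ[X]} {D : ℕ} {H x : ℝ} (hP : Irreducible P) (hd : 0 < P.natDegree)
    (hPR : ¬ P ∣ R) (hD : R.natDegree ≤ D) (hH : ∀ i, |(R.coeff i : ℝ)| ≤ H) (hH1 : 1 ≤ H)
    (hx : |x| ≤ 4)
    (hsm : 2 * |aeval x R| * ((D + 1) * H) ^ P.natDegree * Mm P ^ D ≤ 1) :
    1 ≤ (2 * 5 ^ D * (D + 1) * ((D + 1) * H) ^ P.natDegree * Mm P ^ D) ^ P.natDegree *
      |aeval x P| := by
  classical
  have hP0 : P ≠ 0 := hP.ne_zero
  set f : ℂ[X] := P.map (Int.castRingHom ℂ) with hf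
  set g : ℂ[X] := R.map (Int.castRingHom ℂ) with hg
  have hinj : Function.Injective (Int.castRingHom ℂ) := RingHom.injective_int _
  have hfd : f.natDegree = P.natDegree := natDegree_map_eq_of_injective hinj _
  have hfl : f.leadingCoeff = (P.leadingCoeff : ℂ) := by
    rw [hf, leadingCoeff_map_of_injective hinj]
    rfl
  have hf0 : f ≠ 0 := (Polynomial.map_ne_zero_iff hinj).2 hP0
  have hfs : f.Splits := IsAlgClosed.splits f
  have hcard : f.roots.card = P.natDegree := by rw [← hfd]; exact hfs.natDegree_eq_card_roots.symm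
  have hae : ∀ (A : ℤ[X]) (z : ℂ), (A.map (Int.castRingHom ℂ)).eval z = aeval z A := by
    intro A z
    rw [eval_map, aeval_def]
    rfl
  have hlc : 1 ≤ ‖f.leadingCoeff‖ := by
    rw [hfl, Complex.norm_intCast]
    exact_mod_cast Int.one_le_abs (leadingCoeff_ne_zero.2 hP0)
  -- the resultant
  have hres := resultant_eq_prod_eval f g D (natDegree_map_le.trans hD) hfs
  rw [hfd, hf, hg, resultant_map_map, ← hf, ← hg] at hres
  have hne : f.leadingCoeff ^ D * (f.roots.map g.eval).prod ≠ 0 := by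
    apply mul_ne_zero
    · exact pow_ne_zero _ (leadingCoeff_ne_zero.2 hf0)
    · rw [Ne, Multiset.prod_eq_zero_iff, Multiset.mem_map]
      rintro ⟨z, hz, hz0⟩
      rw [mem_roots hf0, IsRoot.def, hf, hae] at hz
      rw [hg, hae] at hz0
      exact hPR (dvd_of_root hP hd hz hz0)
  have hone : 1 ≤ ‖f.leadingCoeff‖ ^ D * (f.roots.map fun z => ‖g.eval z‖).prod := by
    have h1 : ‖f.leadingCoeff ^ D * (f.roots.map g.eval).prod‖ =
        ‖f.leadingCoeff‖ ^ D * (f.roots.map fun z => ‖g.eval z‖).prod := by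
      rw [norm_mul, norm_pow]
      congr 1
      have h2 := map_multiset_prod (normHom : ℂ →*₀ ℝ) (f.roots.map g.eval)
      rw [Multiset.map_map] at h2
      exact h2
    rw [← h1, ← hres]
    rw [← hres] at hne
    have h3 : resultant P R P.natDegree D ≠ 0 := by
      intro h4
      rw [h4] at hne
      exact hne (map_zero _)
    rw [eq_intCast, Complex.norm_intCast]
    exact_mod_cast Int.one_le_abs h3
  -- the nearest root
  have hrne : f.roots.toFinset.Nonempty := by
    rw [Multiset.toFinset_nonempty, ← Multiset.card_pos, hcard]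
    exact hd
  obtain ⟨α, hα, hmin⟩ := Finset.exists_min_image f.roots.toFinset (fun z => ‖(x : ℂ) - z‖) hrne
  rw [Multiset.mem_toFinset] at hα
  obtain ⟨rest, hrest⟩ := Multiset.exists_cons_of_mem hα
  have hcr : rest.card + 1 = P.natDegree := by
    rw [← hcard, hrest, Multiset.card_cons]
  set δ : ℝ := ‖(x : ℂ) - α‖ with hδ
  have hδ0 : 0 ≤ δ := norm_nonneg _
  have hH0 : 0 ≤ H := by linarith
  set K : ℝ := (D + 1) * H with hK
  have hK1 : 1 ≤ K := by
    rw [hK]
    have : (0 : ℝ) ≤ D := Nat.cast_nonneg D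
    nlinarith
  have hM1 : 1 ≤ Mm P := one_le_Mm hP0
  set n := P.natDegree with hn
  -- the other roots
  have hrestb : ‖f.leadingCoeff‖ ^ D * (rest.map fun z => ‖g.eval z‖).prod ≤ K ^ (n - 1) * Mm P ^ D := by
    have h1 : (rest.map fun z => ‖g.eval z‖).prod ≤ (rest.map fun z => K * (max 1 ‖z‖) ^ D).prod := by
      apply Multiset.prod_map_le_prod_map₀
      · intro z _; exact norm_nonneg _
      · intro z _
        rw [hg, hae]
        exact eval_le99 hD hH z
    have h2 : (rest.map fun z => K * (max 1 ‖z‖) ^ D).prod = K ^ (n - 1) * ((rest.map fun z => max 1 ‖z‖).prod) ^ D := by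
      rw [Multiset.prod_map_mul, Multiset.map_const', Multiset.prod_replicate, Multiset.prod_map_pow]
      congr 2
      omega
    have h3 : Mm P = ‖f.leadingCoeff‖ * (max 1 ‖α‖ * (rest.map fun z => max 1 ‖z‖).prod) := by
      have h4 := mahlerMeasure_eq_leadingCoeff_mul_prod_roots f
      rw [hrest, Multiset.map_cons, Multiset.prod_cons] at h4
      exact h4
    have h5 : 0 ≤ (rest.map fun z => max 1 ‖z‖).prod := by
      apply Multiset.prod_nonneg
      intro y hy
      rw [Multiset.mem_map] at hy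
      obtain ⟨z, _, rfl⟩ := hy
      positivity
    have h6 : ‖f.leadingCoeff‖ * (rest.map fun z => max 1 ‖z‖).prod ≤ Mm P := by
      rw [h3]
      apply mul_le_mul_of_nonneg_left _ (norm_nonneg _)
      exact le_mul_of_one_le_left h5 (le_max_left _ _)
    calc ‖f.leadingCoeff‖ ^ D * (rest.map fun z => ‖g.eval z‖).prod
        ≤ ‖f.leadingCoeff‖ ^ D * (K ^ (n - 1) * ((rest.map fun z => max 1 ‖z‖).prod) ^ D) := by
          rw [← h2]
          exact mul_le_mul_of_nonneg_left h1 (by positivity)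
      _ = K ^ (n - 1) * (‖f.leadingCoeff‖ * (rest.map fun z => max 1 ‖z‖).prod) ^ D := by
          rw [mul_pow]; ring
      _ ≤ K ^ (n - 1) * Mm P ^ D := by
          apply mul_le_mul_of_nonneg_left _ (by positivity)
          exact pow_le_pow_left₀ (by positivity) h6 _
  have hRα : 1 ≤ ‖g.eval α‖ * (K ^ (n - 1) * Mm P ^ D) := by
    rw [hrest, Multiset.map_cons, Multiset.prod_cons] at hone
    calc 1 ≤ ‖f.leadingCoeff‖ ^ D * (‖g.eval α‖ * (rest.map fun z => ‖g.eval z‖).prod) := hone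
      _ = ‖g.eval α‖ * (‖f.leadingCoeff‖ ^ D * (rest.map fun z => ‖g.eval z‖).prod) := by ring
      _ ≤ _ := mul_le_mul_of_nonneg_left hrestb (norm_nonneg _)
  -- the base
  set G : ℝ := K ^ n * Mm P ^ D with hG
  have hG1 : 1 ≤ G := one_le_mul_of_one_le_of_one_le (one_le_pow₀ hK1) (one_le_pow₀ hM1)
  set B : ℝ := 2 * 5 ^ D * (D + 1) * G with hB
  have hB1 : 1 ≤ B := by
    rw [hB]
    have h5 : (1 : ℝ) ≤ 5 ^ D := one_le_pow₀ (by norm_num)
    have h6 : (1 : ℝ) ≤ (D : ℝ) + 1 := by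
      have : (0 : ℝ) ≤ D := Nat.cast_nonneg D
      linarith
    have h7 : (1 : ℝ) ≤ 2 * 5 ^ D := by linarith
    exact one_le_mul_of_one_le_of_one_le (one_le_mul_of_one_le_of_one_le h7 h6) hG1
  have hδB : 1 ≤ δ * B := by
    by_cases hc : 1 ≤ δ
    · exact one_le_mul_of_one_le_of_one_le hc hB1
    · push Not at hc
      have hxn : ‖(x : ℂ)‖ ≤ 4 := by
        rw [Complex.norm_real, Real.norm_eq_abs]
        exact hx
      have hα5 : ‖α‖ ≤ 5 := by
        have h1 : ‖α‖ ≤ ‖(x : ℂ)‖ + ‖(x : ℂ) - α‖ := by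
          have h2 := norm_sub_le (x : ℂ) ((x : ℂ) - α)
          rwa [sub_sub_cancel] at h2
        rw [← hδ] at h1
        linarith
      have h1 := eval_sub99 hD hH hα5 hxn (δ := δ) (by rw [hδ, norm_sub_rev]) hδ0
      have h2 : ‖aeval α R‖ ≤ ‖aeval (x : ℂ) R‖ + δ * (H * ((D + 1) ^ 2 * 5 ^ D)) := by
        have h3 := norm_sub_norm_le (aeval α R) (aeval (x : ℂ) R)
        linarith
      have h4 : ‖aeval (x : ℂ) R‖ = |aeval x R| := by
        have h5 : aeval (x : ℂ) R = ((aeval x R : ℝ) : ℂ) := by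
          have := aeval_algebraMap_apply ℂ x R
          simpa using this
        rw [h5, Complex.norm_real, Real.norm_eq_abs]
      have hgα : ‖g.eval α‖ = ‖aeval α R‖ := by rw [hg, hae]
      rw [hgα] at hRα
      have hKn : K ^ n = K ^ (n - 1) * K := by
        rw [← pow_succ]
        congr 1
        omega
      have h6 : K ≤ ‖aeval α R‖ * G := by
        have : ‖aeval α R‖ * G = (‖aeval α R‖ * (K ^ (n - 1) * Mm P ^ D)) * K := by
          rw [hG, hKn]; ring
        rw [this]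
        nlinarith
      have h7 : 2 * |aeval x R| * G ≤ 1 := by
        rw [hG]
        calc 2 * |aeval x R| * (K ^ n * Mm P ^ D) = 2 * |aeval x R| * K ^ n * Mm P ^ D := by ring
          _ ≤ 1 := hsm
      have h8 : K ≤ 1 / 2 + δ * (H * ((D + 1) ^ 2 * 5 ^ D)) * G := by
        have h9 : ‖aeval α R‖ * G ≤ (|aeval x R| + δ * (H * ((D + 1) ^ 2 * 5 ^ D))) * G := by
          apply mul_le_mul_of_nonneg_right _ (by linarith)
          rw [← h4]
          exact h2
        nlinarith
      have h10 : δ * (H * ((D + 1) ^ 2 * 5 ^ D)) * G = (K / 2) * (δ * B) := by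
        rw [hB, hK]
        ring
      rw [h10] at h8
      by_contra hcon
      push Not at hcon
      nlinarith
  -- the value of `P`
  have hPx : δ ^ n ≤ |aeval x P| := by
    have h1 : |aeval x P| = ‖f.eval (x : ℂ)‖ := by
      rw [hf, hae]
      have h5 : aeval (x : ℂ) P = ((aeval x P : ℝ) : ℂ) := by
        have := aeval_algebraMap_apply ℂ x P
        simpa using this
      rw [h5, Complex.norm_real, Real.norm_eq_abs]
    have h2 : f.eval (x : ℂ) = f.leadingCoeff * (f.roots.map fun z => (x : ℂ) - z).prod := by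
      conv_lhs => rw [hfs.eq_prod_roots]
      rw [eval_mul, eval_C, eval_multiset_prod, Multiset.map_map]
      congr 2
      apply Multiset.map_congr rfl
      intro z _
      simp
    have h3 : ‖(f.roots.map fun z => (x : ℂ) - z).prod‖ = (f.roots.map fun z => ‖(x : ℂ) - z‖).prod := by
      have h2 := map_multiset_prod (normHom : ℂ →*₀ ℝ) (f.roots.map fun z => (x : ℂ) - z)
      rw [Multiset.map_map] at h2
      exact h2
    have h4 : δ ^ n ≤ (f.roots.map fun z => ‖(x : ℂ) - z‖).prod := by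
      have h5 : (f.roots.map fun _ => δ).prod ≤ (f.roots.map fun z => ‖(x : ℂ) - z‖).prod := by
        apply Multiset.prod_map_le_prod_map₀
        · intro z _; exact hδ0
        · intro z hz
          exact hmin z (Multiset.mem_toFinset.2 hz)
      rwa [Multiset.map_const', Multiset.prod_replicate, hcard] at h5
    rw [h1, h2, norm_mul, h3]
    calc δ ^ n = 1 * δ ^ n := (one_mul _).symm
      _ ≤ ‖f.leadingCoeff‖ * (f.roots.map fun z => ‖(x : ℂ) - z‖).prod :=
          mul_le_mul hlc h4 (by positivity) (norm_nonneg _)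
  have hfin : (2 * 5 ^ D * (D + 1) * K ^ n * Mm P ^ D) = B := by
    rw [hB, hG]; ring
  rw [hfin]
  calc (1 : ℝ) ≤ (δ * B) ^ n := one_le_pow₀ hδB
    _ = B ^ n * δ ^ n := by rw [mul_pow]; ring
    _ ≤ B ^ n * |aeval x P| := mul_le_mul_of_nonneg_left hPx (by positivity)

end Pool.Agent.Helper99.PM
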